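import Pool.Agent.H649R3.PHGLower

set_option autoImplicit false

/-! MP_4f92f0_co: the statement of Q1 is false. For every finite commutative chain ring `R` of
nilpotency index two with residue field of order `q ≥ 4`, and every `n` with
`q^2 + 2 ≤ n ≤ q^2 + q - 2`, the plane `PHG(2,R)` has a maximal `(k,n)`-arc with a point of
multiplicity at least two. Such rings exist, for instance `ZMod 25`. -/

namespace Pool.Agent.Results.MP_4f92f0_co.NonprojectiveMaximalArc

open Pool.Agent.H649R3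

theorem zmod25 : FiniteChainRingTwo (ZMod 25) ∧ resCard (ZMod 25) = 5 := by
  have hchain : ∀ I J : Ideal (ZMod 25), I ≤ J ∨ J ≤ I := by
    intro I J
    by_contra hc
    push Not at hc
    obtain ⟨h1, h2⟩ := hc
    obtain ⟨x, hxI, hxJ⟩ := SetLike.not_le_iff_exists.1 h1
    obtain ⟨y, hyJ, hyI⟩ := SetLike.not_le_iff_exists.1 h2
    have key : ∀ x y : ZMod 25, (∃ z, y = z * x) ∨ (∃ z, x = z * y) := by decide
    rcases key x y with ⟨z, hz⟩ | ⟨z, hz⟩
    · exact hyI (hz ▸ I.mul_mem_left z hxI)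
    · exact hxJ (hz ▸ J.mul_mem_left z hyJ)
  haveI hnt : Nontrivial (ZMod 25) := ⟨0, 1, by decide⟩
  haveI hloc : IsLocalRing (ZMod 25) := by
    apply IsLocalRing.of_unique_max_ideal
    obtain ⟨I, hI⟩ := Ideal.exists_maximal (ZMod 25)
    refine ⟨I, hI, ?_⟩
    intro J hJ
    rcases hchain I J with h1 | h1
    · exact (hI.eq_of_le hJ.ne_top h1).symm
    · exact hJ.eq_of_le hI.ne_top h1
  have hjac : Ring.jacobson (ZMod 25) = IsLocalRing.maximalIdeal (ZMod 25) := by
    rw [← IsLocalRing.jacobson_eq_maximalIdeal (⊥ : Ideal (ZMod 25)) bot_ne_top]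
    rw [Ring.jacobson_eq_sInf_isMaximal, Ideal.jacobson]
    congr 1
    ext J
    simp
  have hmem : ∀ x : ZMod 25, x ∈ IsLocalRing.maximalIdeal (ZMod 25) ↔
      ∃ y : ZMod 5, x = 5 * (y.val : ZMod 25) := by
    intro x
    rw [IsLocalRing.mem_maximalIdeal, mem_nonunits_iff]
    have h1 : IsUnit x ↔ ∃ y, x * y = 1 := by
      constructor
      · intro h; exact h.exists_right_inv
      · rintro ⟨y, hy⟩; exact IsUnit.of_mul_eq_one y hy
    rw [h1]
    revert x
    decide
  have hF : FiniteChainRingTwo (ZMod 25) := by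
    refine ⟨hnt, inferInstance, hchain, ?_, ?_⟩
    · rw [hjac]
      intro h
      have : (5 : ZMod 25) ∈ IsLocalRing.maximalIdeal (ZMod 25) := by
        rw [hmem]; exact ⟨1, by decide⟩
      rw [h, Ideal.mem_bot] at this
      exact absurd this (by decide)
    · rw [hjac, pow_two, eq_bot_iff, Ideal.mul_le]
      intro r hr s hs
      rw [hmem] at hr hs
      obtain ⟨a, rfl⟩ := hr
      obtain ⟨b, rfl⟩ := hs
      rw [Ideal.mem_bot]
      revert a b
      decide
  refine ⟨hF, ?_⟩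
  obtain ⟨D, hD⟩ := exists_dat hF
  have h1 := D.card_eq
  rw [ZMod.card, hD] at h1
  nlinarith [Nat.zero_le (resCard (ZMod 25))]

/-- The strong form: every such ring with `q ≥ 4`, every `n` with `q^2+2 ≤ n ≤ q^2+q-2`. -/
theorem strong (R : Type) [CommRing R] (hR : FiniteChainRingTwo R) (hq : 4 ≤ resCard R)
    (n : ℕ) (hn1 : resCard R ^ 2 + 2 ≤ n) (hn2 : n + 2 ≤ resCard R ^ 2 + resCard R) :
    ∃ (k : ℕ) (K : Point R → ℕ), IsMaximalArc k n K ∧ ¬ IsProjective K := by
  classical
  haveI := hR.nontrivial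
  haveI := hR.finite
  haveI : Fintype R := Fintype.ofFinite R
  obtain ⟨D, hD⟩ := exists_dat hR
  rw [← hD] at hq hn1 hn2
  obtain ⟨j, hj⟩ : ∃ j, n + j = D.M.card ^ 2 + D.M.card :=
    ⟨D.M.card ^ 2 + D.M.card - n, by omega⟩
  have hj2 : 2 ≤ j := by omega
  have hjq : j + 2 ≤ D.M.card := by omega
  obtain ⟨T, hT, hTj⟩ := Finset.exists_subset_card_eq (show j ≤ D.M.card by omega)
  have hcard : ((D.M.erase 0).erase D.p).card = D.M.card - 2 := by
    rw [Finset.card_erase_of_mem, Finset.card_erase_of_mem D.zero_mem]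
    · omega
    · exact Finset.mem_erase.2 ⟨D.p_ne, D.p_mem⟩
  obtain ⟨J', hJ', hJ'j⟩ := Finset.exists_subset_card_eq
    (show j ≤ ((D.M.erase 0).erase D.p).card by omega)
  have hpJ' : D.p ∉ J' := fun h => by
    have := hJ' h
    simp at this
  have h0J' : (0 : R) ∉ insert D.p J' := by
    rw [Finset.mem_insert]
    rintro (h | h)
    · exact D.p_ne h.symm
    · have := hJ' h
      simp at this
  have hJM : insert D.p J' ⊆ D.M := by
    intro x hx
    rw [Finset.mem_insert] at hx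
    rcases hx with rfl | hx
    · exact D.p_mem
    · exact Finset.mem_of_mem_erase (Finset.mem_of_mem_erase (hJ' hx))
  have hJc : (insert D.p J').card = j + 1 := by
    rw [Finset.card_insert_of_notMem hpJ', hJ'j]
  refine ⟨mass (bigK D T (insert D.p J')) Set.univ, bigK D T (insert D.p J'), ⟨⟨rfl, ?_⟩, ?_⟩, ?_⟩
  · intro L
    have := line_le D T (insert D.p J') j hT hTj hJM h0J' (Finset.mem_insert_self _ _) hJc hj2
      hjq L
    omega
  · rintro k' K' ⟨hk', hK'⟩
    have h1 := upper D K' n (by omega) hK'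
    have h2 := total D T (insert D.p J') j hT hTj h0J' hJc
    rw [hk'] at h1
    have h3 : n * (D.M.card ^ 2 + D.M.card) + j * (D.M.card ^ 2 + D.M.card) =
        D.M.card ^ 4 + D.M.card ^ 3 + D.M.card ^ 2 + D.M.card ^ 3 := by
      rw [← Nat.add_mul, hj]; ring
    omega
  · intro hproj
    have h1 := ev_bigK D T (insert D.p J') (Sum.inr (Sum.inl (⟨0, D.zero_mem⟩, 0)))
    rw [ev_eq _ (unimod_cv D _)] at h1
    have h2 := hproj (pt (cv D (Sum.inr (Sum.inl (⟨0, D.zero_mem⟩, 0)))) (unimod_cv D _))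
    rw [h1] at h2
    simp [k0, kB] at h2

/-- Q1 is false, and fails for every finite commutative chain ring of nilpotency index two with
residue field of order `q ≥ 4` and every `n` with `q^2 + 2 ≤ n ≤ q^2 + q - 2`. -/
theorem result :
    (¬ ∀ (R : Type) [CommRing R], FiniteChainRingTwo R →
      ∀ n : ℕ, n ≤ resCard R ^ 2 + resCard R →
        ∀ (k : ℕ) (K : Point R → ℕ), IsMaximalArc k n K → IsProjective K) ∧
    ∀ (R : Type) [CommRing R], FiniteChainRingTwo R → 4 ≤ resCard R →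
      ∀ n : ℕ, resCard R ^ 2 + 2 ≤ n → n + 2 ≤ resCard R ^ 2 + resCard R →
        ∃ (k : ℕ) (K : Point R → ℕ), IsMaximalArc k n K ∧ ¬ IsProjective K := by
  refine ⟨?_, fun R _ hR hq n hn1 hn2 => strong R hR hq n hn1 hn2⟩
  intro h
  obtain ⟨hF, hc⟩ := zmod25
  obtain ⟨k, K, hK, hnp⟩ := strong (ZMod 25) hF (by rw [hc]; norm_num) 28
    (by rw [hc]; norm_num) (by rw [hc]; norm_num)
  exact hnp (h (ZMod 25) hF 28 (by rw [hc]; norm_num) k K hK)

end Pool.Agent.Results.MP_4f92f0_co.NonprojectiveMaximalArc
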